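import Mathlib

set_option autoImplicit false

namespace Pool.Agent.Results.MP_4f3acd_an.NotEquiv

open MeasureTheory Filter Topology Set

section Defs
variable {Ω : Type} [MeasurableSpace Ω] {P : Measure Ω} {𝕜 : Type} [RCLike 𝕜]

/-- `U ⊆ L⁰` is open for the `(ε,λ)`-topology. -/
def OpenEL (U : Set (Ω →ₘ[P] 𝕜)) : Prop :=
  ∀ x ∈ U, ∃ ε l : ℝ, 0 < ε ∧ 0 < l ∧ l < 1 ∧
    {y : Ω →ₘ[P] 𝕜 | 1 - l < P.real {ω | ‖y ω - x ω‖ < ε}} ⊆ U

/-- `U ⊆ L⁰` is open for the locally `L⁰`-convex topology `T_c`. -/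
def OpenC (U : Set (Ω →ₘ[P] 𝕜)) : Prop :=
  ∀ x ∈ U, ∃ ε : Ω →ₘ[P] ℝ, (∀ᵐ ω ∂P, 0 < ε ω) ∧
    {y : Ω →ₘ[P] 𝕜 | ∀ᵐ ω ∂P, ‖y ω - x ω‖ < ε ω} ⊆ U

/-- `U` contains an `O`-open superset of `A`. -/
def IsNhd {E : Type} (O : Set E → Prop) (A U : Set E) : Prop := ∃ W, O W ∧ A ⊆ W ∧ W ⊆ U

/-- Countable measurable partition of `Ω`. -/
def IsPartition (a : ℕ → Set Ω) : Prop :=
  (∀ k, MeasurableSet (a k)) ∧ Pairwise (fun i j => Disjoint (a i) (a j)) ∧ ⋃ k, a k = univ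

/-- `z = ∑ₖ I_(a k) x k`. -/
def Glue (a : ℕ → Set Ω) (x : ℕ → Ω →ₘ[P] 𝕜) (z : Ω →ₘ[P] 𝕜) : Prop :=
  ∀ k, ∀ᵐ ω ∂P, ω ∈ a k → z ω = x k ω

/-- `σ`-stable set. -/
def StableSet (U : Set (Ω →ₘ[P] 𝕜)) : Prop :=
  U.Nonempty ∧ ∀ (a : ℕ → Set Ω) (x : ℕ → Ω →ₘ[P] 𝕜), IsPartition a → (∀ k, x k ∈ U) →
    ∃ z ∈ U, Glue a x z

/-- `σ`-stable set-valued map `L⁰ → 2^(L⁰) \ {∅}`. -/
def StableMap (F : (Ω →ₘ[P] 𝕜) → Set (Ω →ₘ[P] 𝕜)) : Prop :=
  (∀ x, (F x).Nonempty) ∧ ∀ (a : ℕ → Set Ω) (x : ℕ → Ω →ₘ[P] 𝕜) (z : Ω →ₘ[P] 𝕜), IsPartition a →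
    Glue a x z → F z = {w | ∃ y : ℕ → Ω →ₘ[P] 𝕜, (∀ k, y k ∈ F (x k)) ∧ Glue a y w}

/-- `T_c`-upper semicontinuity, tested on the `T_c`-neighbourhoods `U` of `F x₀` with property `Q`. -/
def TcUSC (Q : Set (Ω →ₘ[P] 𝕜) → Prop) (F : (Ω →ₘ[P] 𝕜) → Set (Ω →ₘ[P] 𝕜)) : Prop :=
  ∀ x₀ U, Q U → IsNhd OpenC (F x₀) U → ∃ V, IsNhd OpenC {x₀} V ∧ ∀ x ∈ V, F x ⊆ U

/-- `y` is a random subsequence of `x`. -/
def RandSubseq (x y : ℕ → Ω →ₘ[P] 𝕜) : Prop :=
  ∃ n : ℕ → Ω → ℕ, (∀ k, Measurable (n k)) ∧ (∀ k, ∀ᵐ ω ∂P, n k ω < n (k + 1) ω) ∧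
    ∀ k, Glue (fun l => n k ⁻¹' {l}) x (y k)

/-- Random sequential upper semicontinuity. -/
def RSeqUSC (F : (Ω →ₘ[P] 𝕜) → Set (Ω →ₘ[P] 𝕜)) : Prop :=
  ∀ (x₀ : Ω →ₘ[P] 𝕜) (x : ℕ → Ω →ₘ[P] 𝕜), (∀ W, OpenEL W → x₀ ∈ W → ∀ᶠ n in atTop, x n ∈ W) →
    ∀ V, IsNhd OpenEL (F x₀) V → ∃ y, RandSubseq x y ∧ ∃ k₀, ∀ k ≥ k₀, F (y k) ⊆ V
end Defs

section
variable {P : Measure ℕ} {𝕜 : Type} [RCLike 𝕜]

theorem ae_all (hP : ∀ j, 0 < P.real {j}) {p : ℕ → Prop} : (∀ᵐ ω ∂P, p ω) ↔ ∀ ω, p ω := by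
  rw [ae_iff_of_countable]
  exact ⟨fun h ω => h ω fun h0 => by simpa [Measure.real, h0] using hP ω, fun h ω _ => h ω⟩

theorem ex (hP : ∀ j, 0 < P.real {j}) {E : Type} [TopologicalSpace E] (f : ℕ → E) :
    ∃ y : ℕ →ₘ[P] E, ∀ ω, y ω = f ω :=
  ⟨AEEqFun.mk f StronglyMeasurable.of_discrete.aestronglyMeasurable,
    (ae_all hP).mp (AEEqFun.coeFn_mk _ _)⟩

theorem open_of [IsProbabilityMeasure P] (hP : ∀ j, 0 < P.real {j}) (W : Set (ℕ → 𝕜))
    (hW : IsOpen W) : OpenEL {y : ℕ →ₘ[P] 𝕜 | (y : ℕ → 𝕜) ∈ W} := by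
  intro x hx
  by_contra hc
  push Not at hc
  have h0 : Tendsto (fun n : ℕ => 1 / ((n : ℝ) + 2)) atTop (𝓝 0) :=
    tendsto_const_nhds.div_atTop (tendsto_natCast_atTop_atTop.atTop_add tendsto_const_nhds)
  have : ∀ n : ℕ, ∃ y : ℕ →ₘ[P] 𝕜, 1 - 1 / ((n : ℝ) + 2) <
      P.real {ω | ‖y ω - x ω‖ < 1 / ((n : ℝ) + 2)} ∧ (y : ℕ → 𝕜) ∉ W := fun n => by
    obtain ⟨y, h1, h2⟩ := not_subset.mp (hc (1 / ((n : ℝ) + 2)) (1 / ((n : ℝ) + 2)) (by positivity)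
      (by positivity) (by rw [div_lt_one (by positivity)]; linarith [(Nat.cast_nonneg n : (0 : ℝ) ≤ n)]))
    exact ⟨y, h1, h2⟩
  choose y hy1 hy2 using this
  have ht : Tendsto (fun n => (y n : ℕ → 𝕜)) atTop (𝓝 x) := by
    rw [tendsto_pi_nhds]
    intro j
    rw [tendsto_iff_norm_sub_tendsto_zero]
    refine squeeze_zero' (Eventually.of_forall fun _ => norm_nonneg _) ?_ h0
    filter_upwards [h0.eventually (gt_mem_nhds (hP j))] with n hn
    by_contra h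
    have h1 : {ω | ‖y n ω - x ω‖ < 1 / ((n : ℝ) + 2)} ⊆ {j}ᶜ := fun ω hω hj => by
      rw [mem_singleton_iff.mp hj] at hω; exact h (le_of_lt hω)
    have h2 := measureReal_mono (μ := P) h1
    rw [probReal_compl_eq_one_sub (measurableSet_singleton j)] at h2
    linarith [hy1 n]
  obtain ⟨n, hn⟩ := (ht.eventually (hW.mem_nhds hx)).exists
  exact hy2 n hn

theorem ev_mem [IsProbabilityMeasure P] {W : Set (ℕ →ₘ[P] 𝕜)} (hW : OpenEL W) {y : ℕ → ℕ →ₘ[P] 𝕜}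
    {z : ℕ →ₘ[P] 𝕜} (hz : z ∈ W) (h : ∀ j, Tendsto (fun n => y n j) atTop (𝓝 (z j))) :
    ∀ᶠ n in atTop, y n ∈ W := by
  obtain ⟨ε, l, hε, hl, -, hs⟩ := hW z hz
  have h1 := tendstoInMeasure_iff_norm.mp (tendstoInMeasure_of_tendsto_ae (μ := P)
    (fun n => (y n).aestronglyMeasurable) (Eventually.of_forall h)) ε hε
  have h2 := (ENNReal.tendsto_toReal ENNReal.zero_ne_top).comp h1
  filter_upwards [h2.eventually (gt_mem_nhds (by simpa using hl))] with n hn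
  refine hs ?_
  have e : {ω | ‖y n ω - z ω‖ < ε} = {ω | ε ≤ ‖y n ω - z ω‖}ᶜ := by ext; simp
  rw [mem_ofPred_eq, e, probReal_compl_eq_one_sub MeasurableSet.of_discrete]
  have : P.real {ω | ε ≤ ‖y n ω - z ω‖} < l := hn
  linarith

theorem stable_rel (hP : ∀ j, 0 < P.real {j}) (r : ℕ → 𝕜 → 𝕜 → Prop) (hr : ∀ j t, r j t t) :
    StableMap fun x : ℕ →ₘ[P] 𝕜 => {y : ℕ →ₘ[P] 𝕜 | ∀ j, r j (x j) (y j)} := by
  classical
  refine ⟨fun x => ⟨x, fun j => hr _ _⟩, fun a x z ha hz => ?_⟩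
  simp only [Glue, ae_all hP] at hz ⊢
  ext w
  constructor
  · intro hw
    choose y hy using fun k => ex hP fun j => if j ∈ a k then w j else x k j
    refine ⟨y, fun k j => ?_, fun k j hj => by rw [hy, if_pos hj]⟩
    rw [hy]
    split_ifs with hj
    · rw [← hz k j hj]; exact hw j
    · exact hr _ _
  · rintro ⟨y, hy, hw⟩ j
    obtain ⟨k, hk⟩ := mem_iUnion.mp (ha.2.2 ▸ mem_univ j)
    rw [hz k j hk, hw k j hk]; exact hy k j
end

theorem result (𝕜 : Type) [RCLike 𝕜] : ∃ P : Measure ℕ, IsProbabilityMeasure P ∧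
    StableSet (univ : Set (ℕ →ₘ[P] 𝕜)) ∧
    (∃ F : (ℕ →ₘ[P] 𝕜) → Set (ℕ →ₘ[P] 𝕜), StableMap F ∧ RSeqUSC F ∧ ¬ TcUSC (fun _ => True) F) ∧
    (∃ G : (ℕ →ₘ[P] 𝕜) → Set (ℕ →ₘ[P] 𝕜), StableMap G ∧ TcUSC StableSet G ∧ ¬ RSeqUSC G) := by
  classical
  let p : unitInterval := ⟨1 / 2, by norm_num, by norm_num⟩
  have hp0 : p ≠ 0 := fun h => by have := congrArg Subtype.val h; norm_num [p] at this
  have hp1 : p ≠ 1 := fun h => by have := congrArg Subtype.val h; norm_num [p] at this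
  set P := ProbabilityTheory.geometricMeasure p
  have hP : ∀ j, 0 < P.real {j} := ProbabilityTheory.geometricMeasure_real_singleton_pos hp0 hp1
  refine ⟨P, inferInstance, ⟨univ_nonempty, fun a x ha _ => ?_⟩,
    ⟨_, stable_rel hP (fun _ s t => t = s ∨ t = s + 1) fun _ _ => Or.inl rfl, ?_, ?_⟩,
    ⟨_, stable_rel hP (fun j s t => j = 0 → t = s) fun _ _ _ => rfl, ?_, ?_⟩⟩
  · choose k hk using fun j => mem_iUnion.mp (ha.2.2 ▸ mem_univ j)
    obtain ⟨z, hz⟩ := ex hP fun j => x (k j) j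
    refine ⟨z, trivial, fun i => (ae_all hP).mpr fun j hj => ?_⟩
    have : k j = i := by
      by_contra h
      exact disjoint_left.mp (ha.2.1 h) (hk j) hj
    rw [hz, this]
  · rintro x₀ x hx V ⟨W, hW, hFW, hWV⟩
    have hpt : ∀ j, Tendsto (fun n => x n j) atTop (𝓝 (x₀ j)) := fun j => by
      rw [tendsto_nhds]
      intro s hs hm
      exact hx _ (open_of hP ((fun f : ℕ → 𝕜 => f j) ⁻¹' s) (hs.preimage (continuous_apply j))) hm
    refine ⟨x, ⟨fun k _ => k, fun _ => measurable_const, fun k => .of_forall fun _ => k.lt_succ_self,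
      fun k l => .of_forall fun ω h => by rw [show l = k from h.symm]⟩, ?_⟩
    by_contra hc
    have hfr : ∃ᶠ k in atTop, ∃ y : ℕ →ₘ[P] 𝕜, (∀ j, y j = x k j ∨ y j = x k j + 1) ∧ y ∉ W := by
      rw [frequently_atTop]
      intro k₀
      by_contra h
      push Not at h
      exact hc ⟨k₀, fun k hk y hy => hWV (h k hk y hy)⟩
    obtain ⟨φ, hφ, hy⟩ := extraction_of_frequently_atTop hfr
    choose y hy1 hy2 using hy
    let b : ℕ → ℕ → Bool := fun n j => decide (y n j = x (φ n) j)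
    obtain ⟨c, ψ, hψ, hlim⟩ := CompactSpace.tendsto_subseq b
    obtain ⟨z, hz⟩ := ex hP fun j => if c j then x₀ j else x₀ j + 1
    have hzW : z ∈ W := hFW fun j => by rw [hz]; split_ifs <;> simp
    have := ev_mem hW (y := fun n => y (ψ n)) hzW fun j => by
      have h1 := (hpt j).comp (hφ.comp hψ).tendsto_atTop
      have h2 : ∀ᶠ n in atTop, b (ψ n) j = c j := by
        have := (continuous_apply j).continuousAt.tendsto.comp hlim
        rwa [nhds_discrete, tendsto_pure] at this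
      rw [hz]
      split_ifs with hc
      · refine h1.congr' (h2.mono fun n hn => ?_)
        rw [hc] at hn
        exact (of_decide_eq_true hn).symm
      · refine (h1.add_const 1).congr' (h2.mono fun n hn => ?_)
        rw [Bool.not_eq_true] at hc
        rw [hc] at hn
        exact ((hy1 (ψ n) j).resolve_left (of_decide_eq_false hn)).symm
    obtain ⟨n, hn⟩ := this.exists
    exact hy2 _ hn
  · intro h
    obtain ⟨x₀, hx₀⟩ := ex (P := P) hP fun _ => (0 : 𝕜)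
    let zf : ℕ → ℕ → 𝕜 := fun m j =>
      if j = 0 then ((1 / ((m : ℝ) + 2) : ℝ) : 𝕜) else if j = m + 1 then 1 else 0
    have hn : ∀ m : ℕ, ‖((1 / ((m : ℝ) + 2) : ℝ) : 𝕜)‖ = 1 / ((m : ℝ) + 2) := fun m => by
      rw [RCLike.norm_ofReal, abs_of_pos (by positivity)]
    obtain ⟨V, ⟨W, hW, hxW, hWV⟩, hV⟩ := h x₀ {y | ∀ m, (y : ℕ → 𝕜) ≠ zf m} trivial
      ⟨{y | ∀ m, (y : ℕ → 𝕜) ≠ zf m}, fun y hy => by
        by_cases hm : ∃ m, ∀ j, ‖zf m j - y j‖ < 1 / 2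
        · obtain ⟨m, hm⟩ := hm
          obtain ⟨j₀, hj₀⟩ := Function.ne_iff.mp (hy m)
          have hpos : 0 < ‖zf m j₀ - y j₀‖ := norm_pos_iff.mpr (sub_ne_zero.mpr hj₀.symm)
          obtain ⟨ε, hε⟩ := ex (P := P) hP fun _ => ‖zf m j₀ - y j₀‖
          refine ⟨ε, .of_forall fun ω => by rwa [hε], fun w hw m' he => ?_⟩
          have hw' := (ae_all hP).mp hw
          simp only [hε, he] at hw'
          by_cases hmm : m' = m
          · subst hmm; exact lt_irrefl _ (hw' j₀)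
          · have h1 := hw' (m + 1)
            have h2 := hm (m + 1)
            have h3 := norm_sub_le_norm_sub_add_norm_sub (zf m (m + 1)) (y (m + 1)) (zf m' (m + 1))
            rw [norm_sub_rev (y _)] at h3
            have h4 : ‖zf m (m + 1) - zf m' (m + 1)‖ = 1 := by simp [zf, Ne.symm hmm]
            linarith [hm j₀]
        · obtain ⟨ε, hε⟩ := ex (P := P) hP fun _ => (1 / 2 : ℝ)
          refine ⟨ε, .of_forall fun ω => by rw [hε]; norm_num, fun w hw m' he => hm ⟨m', ?_⟩⟩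
          have hw' := (ae_all hP).mp hw
          simpa only [hε, he] using hw', fun y hy m he => by
        have h1 := hy 0
        rw [he, hx₀, zero_add] at h1
        have h2 := hn m
        have h3 : 1 / ((m : ℝ) + 2) < 1 := by
          rw [div_lt_one (by positivity)]; linarith [(Nat.cast_nonneg m : (0 : ℝ) ≤ m)]
        have h4 : 0 < 1 / ((m : ℝ) + 2) := by positivity
        simp only [zf, if_true] at h1
        rcases h1 with h1 | h1 <;> rw [h1] at h2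
        · rw [norm_zero] at h2; linarith
        · rw [norm_one] at h2; linarith, subset_rfl⟩
    obtain ⟨ε, hε, hs⟩ := hW x₀ (hxW rfl)
    have hε' := (ae_all hP).mp hε
    obtain ⟨m, hm⟩ := exists_nat_one_div_lt (hε' 0)
    obtain ⟨x, hx⟩ := ex (P := P) hP fun j => if j = 0 then ((1 / ((m : ℝ) + 2) : ℝ) : 𝕜) else 0
    obtain ⟨z, hz⟩ := ex (P := P) hP (zf m)
    have hxV : x ∈ V := hWV (hs ((ae_all hP).mpr fun j => by
      rw [hx, hx₀, sub_zero]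
      split_ifs with hj
      · rw [hn, hj]
        exact (one_div_le_one_div_of_le (by positivity) (by linarith)).trans_lt hm
      · rw [norm_zero]; exact hε' j))
    refine hV x hxV (a := z) (fun j => ?_) m (funext hz)
    rw [hz, hx]
    simp only [zf]
    split_ifs <;> simp
  · rintro x₀ U hU ⟨W, hW, hFW, hWU⟩
    refine ⟨W, ⟨W, hW, singleton_subset_iff.mpr (hFW fun _ _ => rfl), subset_rfl⟩, fun x hx y hy => ?_⟩
    obtain ⟨y', hy'⟩ := ex (P := P) hP fun j => if j = 0 then x₀ j else y j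
    obtain ⟨z, hz, hg⟩ := hU.2 (fun k => {k}) (fun k => if k = 0 then x else y')
      ⟨fun _ => measurableSet_singleton _, fun i j h => disjoint_singleton.mpr h, iUnion_of_singleton _⟩
      fun k => by
        split_ifs
        · exact hWU hx
        · exact hWU (hFW fun j hj => by rw [hy', if_pos hj])
    have : y = z := AEEqFun.ext (.of_forall fun j => by
      rw [(ae_all hP).mp (hg j) j rfl]
      beta_reduce
      split_ifs with hj
      · exact hy j hj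
      · rw [hy', if_neg hj])
    rwa [this]
  · intro h
    obtain ⟨x₀, hx₀⟩ := ex (P := P) hP fun _ => (0 : 𝕜)
    choose x hx using fun n : ℕ => ex (P := P) hP fun _ => (1 / ((n : 𝕜) + 1))
    obtain ⟨y, ⟨n, -, -, hy⟩, k, hk⟩ := h x₀ x (fun W hW h0 => ev_mem hW h0 fun j => by
        simp only [hx, hx₀]; exact tendsto_one_div_add_atTop_nhds_zero_nat)
      {y | (y : ℕ → 𝕜) ∈ {f : ℕ → 𝕜 | f 0 * f 1 ≠ 1}}
      ⟨_, open_of hP _ (isOpen_ne_fun (by fun_prop) continuous_const), fun y hy => by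
        have := hy 0 rfl
        change y 0 * y 1 ≠ 1
        rw [this, hx₀]; simp, subset_rfl⟩
    obtain ⟨w, hw⟩ := ex (P := P) hP fun j => if j = 0 then y k 0 else (n k 0 : 𝕜) + 1
    refine hk k le_rfl (a := w) (fun j hj => by rw [hw, if_pos hj, hj]) ?_
    rw [hw, hw, if_pos rfl, if_neg one_ne_zero, (ae_all hP).mp (hy k (n k 0)) 0 rfl, hx]
    exact one_div_mul_cancel (Nat.cast_add_one_ne_zero _)

end Pool.Agent.Results.MP_4f3acd_an.NotEquiv
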